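import Pool.Agent.Lib.H70L.Def
import Pool.Agent.Lib.H85TF.DrawX

/-!
# H61LM, file E: sparse plane edge sets with `2n - 3` edges and simple drawings (MP_33911d, FORM L)
-/

set_option autoImplicit false

open H53P SimpleDraw

namespace H61LM

open Finset H98P H98Z H98M H63F H30F H63L H97W

section graph

variable {V : Type*} [Fintype V] [DecidableEq V]

/-- A set with at least one vertex spans at most `2 k - 2` edges. -/
theorem span_le {H : Finset (Sym2 V)} (hL : ∀ e ∈ H, ¬ e.IsDiag) (hS : H70L.Sparse H) {A : Finset V}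
    (hA : A.Nonempty) : (H ∩ A.sym2).card + 2 ≤ 2 * A.card := by
  rcases Nat.lt_or_ge A.card 2 with h | h
  · have h1 : A.card = 1 := by
      have := card_pos.2 hA
      omega
    obtain ⟨a, rfl⟩ := card_eq_one.1 h1
    have h2 : H ∩ ({a} : Finset V).sym2 = ∅ := by
      rw [eq_empty_iff_forall_notMem]
      intro e he
      rw [mem_inter, mem_sym2_iff] at he
      refine hL e he.1 ?_
      induction e using Sym2.ind with
      | _ x y =>
        have hx := mem_singleton.1 (he.2 x (Sym2.mem_mk_left x y))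
        have hy := mem_singleton.1 (he.2 y (Sym2.mem_mk_right x y))
        rw [hx, hy]
        exact rfl
    rw [h2, card_empty, card_singleton]
  · have := hS A h
    omega

theorem not_disc {H : Finset (Sym2 V)} (hL : ∀ e ∈ H, ¬ e.IsDiag) (hS : H70L.Sparse H)
    (hc : 2 * Fintype.card V ≤ H.card + 3) : ¬ Disc univ H := by
  rintro ⟨C, D, hC, hD, hdis, hu, hno⟩
  have h1 : H ⊆ (H ∩ C.sym2) ∪ (H ∩ D.sym2) := by
    intro e he
    induction e using Sym2.ind with
    | _ x y =>
      have key : ∀ v, v ∈ C ∨ v ∈ D := fun v => by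
        have h : v ∈ C ∪ D := hu ▸ mem_univ v
        exact mem_union.1 h
      rcases key x with hx | hx <;> rcases key y with hy | hy
      · exact mem_union_left _ (mem_inter.2 ⟨he, mk_mem_sym2_iff.2 ⟨hx, hy⟩⟩)
      · exact absurd he (hno x hx y hy)
      · exact absurd (by rwa [Sym2.eq_swap]) (hno y hy x hx)
      · exact mem_union_right _ (mem_inter.2 ⟨he, mk_mem_sym2_iff.2 ⟨hx, hy⟩⟩)
  have h2 := (card_le_card h1).trans (card_union_le _ _)
  have h3 := span_le hL hS hC
  have h4 := span_le hL hS hD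
  have h5 : C.card + D.card = Fintype.card V := by
    rw [← card_union_of_disjoint hdis, hu, card_univ]
  omega

theorem not_disc_erase {H : Finset (Sym2 V)} (hS : H70L.Sparse H)
    (hc : 2 * Fintype.card V ≤ H.card + 3) (z : V) : ¬ Disc (univ.erase z) H := by
  rintro ⟨C, D, hC, hD, hdis, hu, hno⟩
  have hz : ∀ S : Finset V, S ⊆ C ∪ D → z ∉ S := by
    intro S hS hz
    have := hS hz
    rw [hu] at this
    exact (mem_erase.1 this).1 rfl
  have hzC := hz C subset_union_left
  have hzD := hz D subset_union_right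
  have h1 : H ⊆ (H ∩ (insert z C).sym2) ∪ (H ∩ (insert z D).sym2) := by
    intro e he
    induction e using Sym2.ind with
    | _ x y =>
      have key : ∀ v, v = z ∨ v ∈ C ∨ v ∈ D := fun v => by
        by_cases hv : v = z
        · exact Or.inl hv
        · have h : v ∈ C ∪ D := by
            rw [hu]
            exact mem_erase.2 ⟨hv, mem_univ v⟩
          exact Or.inr (mem_union.1 h)
      rw [mem_union, mem_inter, mem_inter, mk_mem_sym2_iff, mk_mem_sym2_iff]
      simp only [mem_insert]
      rcases key x with hx | hx | hx <;> rcases key y with hy | hy | hy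
      · exact Or.inl ⟨he, Or.inl hx, Or.inl hy⟩
      · exact Or.inl ⟨he, Or.inl hx, Or.inr hy⟩
      · exact Or.inr ⟨he, Or.inl hx, Or.inr hy⟩
      · exact Or.inl ⟨he, Or.inr hx, Or.inl hy⟩
      · exact Or.inl ⟨he, Or.inr hx, Or.inr hy⟩
      · exact absurd he (hno x hx y hy)
      · exact Or.inr ⟨he, Or.inr hx, Or.inl hy⟩
      · exact absurd (by rwa [Sym2.eq_swap]) (hno y hy x hx)
      · exact Or.inr ⟨he, Or.inr hx, Or.inr hy⟩
  have h2 := (card_le_card h1).trans (card_union_le _ _)
  have h3 := hS (insert z C) (by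
    rw [card_insert_of_notMem hzC]
    have := card_pos.2 hC
    omega)
  have h4 := hS (insert z D) (by
    rw [card_insert_of_notMem hzD]
    have := card_pos.2 hD
    omega)
  rw [card_insert_of_notMem hzC] at h3
  rw [card_insert_of_notMem hzD] at h4
  have h5 : C.card + D.card + 1 = Fintype.card V := by
    rw [← card_union_of_disjoint hdis, hu, card_erase_of_mem (mem_univ z), card_univ]
    have : 0 < Fintype.card V := Fintype.card_pos_iff.2 ⟨z⟩
    omega
  omega

/-- Every partition of the vertices into `p` parts is crossed by at least `2 p - 3` edges. -/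
theorem cross_card {H : Finset (Sym2 V)} (hL : ∀ e ∈ H, ¬ e.IsDiag) (hS : H70L.Sparse H)
    (hc : 2 * Fintype.card V ≤ H.card + 3) {p : ℕ} (c : V → Fin p) (hsur : Function.Surjective c) :
    2 * p ≤ (H.filter fun e => ¬ ∀ v ∈ e, ∀ w ∈ e, c v = c w).card + 3 := by
  classical
  set K := H.filter fun e => ¬ ∀ v ∈ e, ∀ w ∈ e, c v = c w with hK
  have h1 : H ⊆ K ∪ univ.biUnion fun i : Fin p => H ∩ (univ.filter fun v => c v = i).sym2 := by
    intro e he
    by_cases h : ∀ v ∈ e, ∀ w ∈ e, c v = c w
    · refine mem_union_right _ (mem_biUnion.2 ?_)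
      induction e using Sym2.ind with
      | _ x y =>
        refine ⟨c x, mem_univ _, mem_inter.2 ⟨he, mk_mem_sym2_iff.2 ⟨?_, ?_⟩⟩⟩
        · exact mem_filter.2 ⟨mem_univ _, rfl⟩
        · exact mem_filter.2 ⟨mem_univ _, h y (Sym2.mem_mk_right x y) x (Sym2.mem_mk_left x y)⟩
    · exact mem_union_left _ (mem_filter.2 ⟨he, h⟩)
  have h2 := (card_le_card h1).trans ((card_union_le _ _).trans (Nat.add_le_add_left card_biUnion_le _))
  have h3 : ∀ i : Fin p, (H ∩ (univ.filter fun v => c v = i).sym2).card + 2 ≤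
      2 * (univ.filter fun v => c v = i).card := by
    intro i
    obtain ⟨v, hv⟩ := hsur i
    exact span_le hL hS ⟨v, mem_filter.2 ⟨mem_univ _, hv⟩⟩
  have h4 := sum_le_sum fun i (_ : i ∈ (univ : Finset (Fin p))) => h3 i
  rw [sum_add_distrib, sum_const, card_univ, Fintype.card_fin, smul_eq_mul, ← mul_sum] at h4
  have h5 : ∑ i : Fin p, (univ.filter fun v => c v = i).card = Fintype.card V := by
    rw [← card_univ, card_eq_sum_card_fiberwise (f := c) (t := univ) fun v _ => mem_univ _]
  rw [h5] at h4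
  omega

end graph

/-- From a sparse plane edge set with `2n - 3` edges to a subdrawing. -/
theorem laman_drawing {n : ℕ} (D : SimpleDrawing n) {H : Finset (Sym2 (Fin n))}
    (hL : H ⊆ LW univ) (hP : Plane (H53P.crossT (H53P.table D)) H) (hS : H70L.Sparse H)
    (hc : H.card + 3 = 2 * n) :
    D.Plane (gr H) ∧ (gr H).edgeSet.ncard = 2 * n - 3 ∧
      (∀ X : Finset (Fin n), 2 ≤ X.card → {e ∈ (gr H).edgeSet | ∀ v ∈ e, v ∈ X}.ncard ≤ 2 * X.card - 3) ∧
      (gr H).Connected ∧ (3 ≤ n → ∀ v : Fin n, ((gr H).induce {w | w ≠ v}).Connected) := by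
  have hdiag := H85TF.not_diag_of_LW hL
  have hn : 2 ≤ n := by omega
  have hE := H85TF.gr_edgeSet hdiag
  have hcc : 2 * Fintype.card (Fin n) ≤ H.card + 3 := by
    rw [Fintype.card_fin]
    omega
  refine ⟨plane_of D hP, ?_, fun X hX => ?_, ?_, fun h3 v => ?_⟩
  · rw [hE, Set.ncard_coe_finset]
    omega
  · have h1 : {e ∈ (gr H).edgeSet | ∀ v ∈ e, v ∈ X} = ((H ∩ X.sym2 : Finset (Sym2 (Fin n))) : Set (Sym2 (Fin n))) := by
      ext e
      rw [hE]
      simp only [Set.mem_setOf_eq, mem_coe, mem_inter, mem_sym2_iff]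
    rw [h1, Set.ncard_coe_finset]
    have := hS X hX
    omega
  · have h6 := H98TF.induce_connected ⟨⟨0, by omega⟩, mem_univ _⟩ (not_disc hdiag hS hcc)
    have h7 : {v : Fin n | v ∈ (univ : Finset (Fin n))} = Set.univ := by
      ext v
      simp
    rw [h7] at h6
    exact (SimpleGraph.induceUnivIso (gr H)).connected_iff.1 h6
  · have h6 : (univ.erase v).Nonempty := by
      rw [← card_pos, card_erase_of_mem (mem_univ _), card_univ, Fintype.card_fin]
      omega
    have h7 := H98TF.induce_connected h6 (not_disc_erase hS hcc v)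
    have h8 : {w : Fin n | w ∈ univ.erase v} = {w | w ≠ v} := by
      ext w
      simp
    rw [h8] at h7
    exact h7

end H61LM
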